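import Pool.Agent.Y272.TY.Stm

set_option autoImplicit false

open Complex Filter Topology Metric Set MeasureTheory

namespace Pool.Agent.Y572.TY

open Pool.Agent.H712R2 Pool.Agent.H713R2 Pool.Agent.Y272.TY

theorem exp3_gt : (20 : ℝ) < Real.exp 3 := by
  have h : Real.exp 3 = Real.exp 1 ^ 3 := by rw [← Real.exp_nat_mul]; norm_num
  have h1 := Real.exp_one_gt_d9
  rw [h]
  calc (20 : ℝ) < 2.7182818283 ^ 3 := by norm_num
    _ < Real.exp 1 ^ 3 := by gcongr

theorem exp3_lt : Real.exp 3 < (20.1 : ℝ) := by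
  have h : Real.exp 3 = Real.exp 1 ^ 3 := by rw [← Real.exp_nat_mul]; norm_num
  have h1 := Real.exp_one_lt_d9
  rw [h]
  calc Real.exp 1 ^ 3 < 2.7182818286 ^ 3 := by gcongr
    _ < (20.1 : ℝ) := by norm_num

theorem exp3_inv_lt : Real.exp (-3) < (0.05 : ℝ) := by
  rw [Real.exp_neg]
  have h := exp3_gt
  rw [inv_lt_comm₀ (Real.exp_pos 3) (by norm_num)]
  norm_num at h ⊢
  exact h

theorem DD_one {d : ℕ} (hd : 2 ≤ d) : 1 ≤ DD d := by
  unfold DD
  have h1 : (1 : ℝ) ≤ d := by exact_mod_cast (show 1 ≤ d by omega)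
  have h2 : (1 : ℝ) ≤ 42 ^ (d - 1) := one_le_pow₀ (by norm_num)
  nlinarith

/-- the lower bound of `P` near infinity -/
theorem P_low {d : ℕ} {β : ℂ → ℂ} {L : ℕ → ℂ → ℂ} (hd : 2 ≤ d) (hL : IsLog d β L)
    {j : ℕ} {x : ℂ} (hx0 : x ≠ 0) (hx : ‖x‖ < 1) (hj : ‖x‖ ^ (d ^ j) ≤ Real.exp (-3)) :
    0.92 * ‖x‖⁻¹ ^ (d ^ j) ≤ ‖P d (j + 1) (cc β x)‖ := by
  have hxb : x ∈ ball (0 : ℂ) 1 := mem_ball_zero_iff.mpr hx
  have hX : 0 < ‖x‖ := norm_pos_iff.mpr hx0
  have h1 := BB_eq hd β j x hx0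
  have h2 := hL.exp j x hxb
  have h3 := hL.bound j x hxb
  set t : ℝ := ‖x‖ ^ (d ^ (j + 1) - 1) with ht
  have ht0 : 0 ≤ t := by positivity
  have hle : d ^ j ≤ d ^ (j + 1) - 1 := by
    have h4 : 1 ≤ d ^ j := Nat.one_le_pow _ _ (by omega)
    have h5 : d ^ j * 2 ≤ d ^ (j + 1) := by
      rw [pow_succ]; exact Nat.mul_le_mul_left _ hd
    omega
  have ht1 : t ≤ 0.05 := by
    have h4 : t ≤ ‖x‖ ^ (d ^ j) := pow_le_pow_of_le_one hX.le hx.le hle
    have h5 := exp3_inv_lt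
    linarith
  have hlog := Real.log_two_lt_d9
  have hlog0 : 0 < Real.log 2 := Real.log_pos (by norm_num)
  have h6 : ‖L j x‖ ≤ 0.08 := by
    refine h3.trans ?_
    rw [div_le_iff₀ (by linarith)]
    have h7 : 2 * Real.log 2 * t ≤ 2 * 0.6931471808 * 0.05 := by
      have : Real.log 2 * t ≤ 0.6931471808 * 0.05 :=
        mul_le_mul hlog.le ht1 ht0 (by norm_num)
      linarith
    nlinarith
  have h8 : 0.92 ≤ ‖BB d β j x‖ := by
    rw [← h2, Complex.norm_exp]
    have h9 : -0.08 ≤ (L j x).re := by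
      have := Complex.abs_re_le_norm (L j x)
      have := neg_abs_le (L j x).re
      linarith
    have h10 := Real.add_one_le_exp (L j x).re
    linarith
  have h11 : ‖BB d β j x‖ = ‖x‖ ^ (d ^ j) * ‖P d (j + 1) (cc β x)‖ := by
    rw [h1, norm_mul, norm_pow, cc]
  rw [h11] at h8
  have h12 : 0 < ‖x‖ ^ (d ^ j) := by positivity
  rw [inv_pow, ← div_eq_mul_inv, div_le_iff₀ h12]
  linarith

theorem P_up {d : ℕ} {β : ℂ → ℂ} (hd : 2 ≤ d) (hβ : IsBeta d β) (j : ℕ) {x : ℂ} (hx0 : x ≠ 0)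
    (hx : ‖x‖ < 1) : ‖P d (j + 1) (cc β x)‖ ≤ 2 * ‖x‖⁻¹ ^ (d ^ j) := by
  have hX : 0 < ‖x‖ := norm_pos_iff.mpr hx0
  have hz : 1 < ‖x⁻¹‖ := by
    rw [norm_inv]
    exact (one_lt_inv₀ hX).mpr hx
  have h := AR.P_psi_le hd hβ j hz
  rw [inv_inv, norm_inv] at h
  exact h

theorem pow_diff {d : ℕ} {a b : ℂ} (ha : ‖a‖ ≤ 42) (hb : ‖b‖ ≤ 42) :
    ‖a ^ d - b ^ d‖ ≤ DD d * ‖a - b‖ := by
  rw [← (Commute.all a b).geom_sum₂_mul d, norm_mul]
  apply mul_le_mul_of_nonneg_right _ (norm_nonneg _)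
  unfold DD
  calc ‖∑ i ∈ Finset.range d, a ^ i * b ^ (d - 1 - i)‖
      ≤ ∑ i ∈ Finset.range d, ‖a ^ i * b ^ (d - 1 - i)‖ := norm_sum_le _ _
    _ ≤ ∑ i ∈ Finset.range d, (42 : ℝ) ^ (d - 1) := by
        apply Finset.sum_le_sum
        intro i hi
        rw [Finset.mem_range] at hi
        rw [norm_mul, norm_pow, norm_pow]
        calc ‖a‖ ^ i * ‖b‖ ^ (d - 1 - i) ≤ 42 ^ i * 42 ^ (d - 1 - i) := by gcongr
          _ = 42 ^ (d - 1) := by rw [← pow_add]; congr 1; omega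
    _ = d * 42 ^ (d - 1) := by rw [Finset.sum_const, Finset.card_range, nsmul_eq_mul]

theorem t : St_LB := by
  intro d β L hd hβ hL n m x hx0 hx
  set X : ℝ := ‖x‖ with hXdef
  have hX : 0 < X := norm_pos_iff.mpr hx0
  have hdR : (0 : ℝ) < d := by exact_mod_cast (show 0 < d by omega)
  have hX1 : X < 1 := by
    refine hx.trans_lt ?_
    rw [Real.exp_lt_one_iff]
    have : 0 < 3 / (d : ℝ) ^ (n + m) := by positivity
    linarith
  have hW1 : 1 < X⁻¹ := (one_lt_inv₀ hX).mpr hX1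
  set W : ℝ := X⁻¹ with hW
  have hDD := DD_one hd
  have hQ : ∃ k, X ^ (d ^ (n + k)) ≤ Real.exp (-3) := by
    refine ⟨m, ?_⟩
    calc X ^ (d ^ (n + m)) ≤ Real.exp (-(3 / (d : ℝ) ^ (n + m))) ^ (d ^ (n + m)) := by gcongr
      _ = Real.exp (-3) := by
        rw [← Real.exp_nat_mul]
        congr 1
        push_cast
        field_simp
  have hle : Nat.find hQ ≤ m := by
    apply Nat.find_min' hQ
    calc X ^ (d ^ (n + m)) ≤ Real.exp (-(3 / (d : ℝ) ^ (n + m))) ^ (d ^ (n + m)) := by gcongr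
      _ = Real.exp (-3) := by
        rw [← Real.exp_nat_mul]
        congr 1
        push_cast
        field_simp
  have hspec := Nat.find_spec hQ
  have hmin := fun k => @Nat.find_min _ _ hQ k
  set m' := Nat.find hQ with hm'
  have hinv : ∀ k : ℕ, W ^ k = (X ^ k)⁻¹ := fun k => by rw [hW, inv_pow]
  have hexp3 : (Real.exp (-3))⁻¹ = Real.exp 3 := by rw [Real.exp_neg, inv_inv]
  have hbig : Real.exp 3 ≤ W ^ (d ^ (n + m')) := by
    rw [hinv, ← hexp3]
    exact inv_anti₀ (by positivity) hspec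
  have h20 := exp3_gt
  have h201 := exp3_lt
  rcases Nat.eq_zero_or_pos m' with h0 | hpos
  · rw [h0, Nat.add_zero] at hspec hbig
    have h1 := P_low hd hL hx0 hX1 hspec
    have h2 : (1 : ℝ) ≤ DD d ^ m := one_le_pow₀ hDD
    have h3 : 1 ≤ ‖P d (n + 1) (cc β x)‖ := by
      have : (0.92 : ℝ) * W ^ (d ^ n) ≤ ‖P d (n + 1) (cc β x)‖ := h1
      nlinarith
    nlinarith
  · obtain ⟨r, hr⟩ : ∃ r, m' = r + 1 := ⟨m' - 1, by omega⟩
    have hnot : ¬ X ^ (d ^ (n + r)) ≤ Real.exp (-3) := hmin r (by omega)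
    rw [not_le] at hnot
    have hsm : W ^ (d ^ (n + r)) < Real.exp 3 := by
      rw [hinv, ← hexp3]
      exact inv_strictAnti₀ (Real.exp_pos _) hnot
    set Y : ℝ := W ^ (d ^ r) with hY
    have hY1 : 1 ≤ Y := one_le_pow₀ hW1.le
    have hYn : Y ^ (d ^ n) = W ^ (d ^ (n + r)) := by
      rw [hY, ← pow_mul, pow_add, mul_comm]
    have hYlt : Y < 20.1 := by
      have h1 : Y ^ 1 ≤ Y ^ (d ^ n) := pow_le_pow_right₀ hY1 (Nat.one_le_pow _ _ (by omega))
      rw [pow_one, hYn] at h1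
      linarith
    have hPj : ∀ j, j ≤ r → ‖P d (j + 1) (cc β x)‖ ≤ 2 * Y := by
      intro j hj
      refine (P_up hd hβ j hx0 hX1).trans ?_
      have : W ^ (d ^ j) ≤ W ^ (d ^ r) :=
        pow_le_pow_right₀ hW1.le (Nat.pow_le_pow_right (by omega) hj)
      linarith
    by_contra hcon
    rw [not_le] at hcon
    set z := P d (n + 1) (cc β x) with hz
    have hz' : ‖z‖ * DD d ^ m' < 1 := by
      refine lt_of_le_of_lt ?_ hcon
      exact mul_le_mul_of_nonneg_left (pow_le_pow_right₀ hDD hle) (norm_nonneg _)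
    have hzj : ∀ j, j ≤ m' → ‖z‖ * DD d ^ j ≤ 1 := by
      intro j hj
      refine le_trans ?_ hz'.le
      exact mul_le_mul_of_nonneg_left (pow_le_pow_right₀ hDD hj) (norm_nonneg _)
    have hz1 : ‖z‖ ≤ 1 := by simpa using hzj 0 (by omega)
    have hind : ∀ j, j ≤ r → ‖P d (n + 1 + (j + 1)) (cc β x) - P d (j + 1) (cc β x)‖ ≤
        ‖z‖ * DD d ^ j := by
      intro j
      induction j with
      | zero =>
        intro _
        have e1 : P d (n + 1 + (0 + 1)) (cc β x) = z ^ d + cc β x := P_succ d (n + 1) _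
        have e2 : P d (0 + 1) (cc β x) = cc β x := by
          rw [P_succ, P_zero, zero_pow (by omega), zero_add]
        rw [e1, e2, add_sub_cancel_right, norm_pow, pow_zero, mul_one]
        exact pow_le_of_le_one (norm_nonneg _) hz1 (by omega)
      | succ j ih =>
        intro hj
        have h1 := ih (by omega)
        have h2 := hPj j (by omega)
        have h3 := hzj j (by omega)
        set a := P d (n + 1 + (j + 1)) (cc β x) with ha
        set b := P d (j + 1) (cc β x) with hb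
        have hbn : ‖b‖ ≤ 41 := by linarith
        have han : ‖a‖ ≤ 42 := by
          have : ‖a‖ ≤ ‖a - b‖ + ‖b‖ := by simpa using norm_add_le (a - b) b
          linarith
        have e1 : P d (n + 1 + (j + 1 + 1)) (cc β x) = a ^ d + cc β x :=
          P_succ d (n + 1 + (j + 1)) _
        have e2 : P d (j + 1 + 1) (cc β x) = b ^ d + cc β x := P_succ d (j + 1) _
        rw [e1, e2, add_sub_add_right_eq_sub, pow_succ]
        calc ‖a ^ d - b ^ d‖ ≤ DD d * ‖a - b‖ := pow_diff han (by linarith)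
          _ ≤ DD d * (‖z‖ * DD d ^ j) := by gcongr
          _ = ‖z‖ * (DD d ^ j * DD d) := by ring
    have h1 := hind r le_rfl
    have h2 := hPj r le_rfl
    have h3 := hzj r (by omega)
    have h4 : ‖P d (n + 1 + (r + 1)) (cc β x)‖ ≤ 2 * Y + 1 := by
      have : ‖P d (n + 1 + (r + 1)) (cc β x)‖ ≤
          ‖P d (n + 1 + (r + 1)) (cc β x) - P d (r + 1) (cc β x)‖ + ‖P d (r + 1) (cc β x)‖ := by
        simpa using norm_add_le (P d (n + 1 + (r + 1)) (cc β x) - P d (r + 1) (cc β x))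
          (P d (r + 1) (cc β x))
      linarith
    have h5 := P_low hd hL hx0 hX1 hspec
    have e3 : n + m' + 1 = n + 1 + (r + 1) := by omega
    rw [e3] at h5
    have h5' : 0.92 * W ^ (d ^ (n + m')) ≤ ‖P d (n + 1 + (r + 1)) (cc β x)‖ := h5
    have hYp : W ^ (d ^ (n + m')) = Y ^ (d ^ (n + 1)) := by
      rw [hY, ← pow_mul, ← pow_add, hr]
      congr 2
      omega
    have hY2 : Y ^ 2 ≤ W ^ (d ^ (n + m')) := by
      rw [hYp]
      apply pow_le_pow_right₀ hY1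
      calc 2 ≤ d := hd
        _ = d ^ 1 := (pow_one d).symm
        _ ≤ d ^ (n + 1) := Nat.pow_le_pow_right (by omega) (by omega)
    set V := W ^ (d ^ (n + m')) with hV
    rcases le_or_gt Y 4.4 with h6 | h6
    · linarith
    · nlinarith

end Pool.Agent.Y572.TY
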